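import Pool.Agent.helper66.FO.Spec

/-!
# Row fo:NZP (MP_3938c6_al): the polynomial `∑ f_i X_0 g_i` is not zero
-/

set_option autoImplicit false

open Submodule

noncomputable section

namespace Pool.Agent.FO

open Pool.Agent.NN

universe u v

theorem NZP_dual {K : Type u} {V : Type u} [Field K] [AddCommGroup V] [Module K V] {n : ℕ}
    (g : Fin n → V) (hg : LinearIndependent K g) (i₀ : Fin n) :
    ∃ ψ : V →ₗ[K] K, ∀ j, ψ (g j) = if j = i₀ then 1 else 0 := by
  classical
  obtain ⟨ψ, hψ⟩ := LinearMap.exists_extend ((Module.Basis.span hg).coord i₀)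
  refine ⟨ψ, fun j => ?_⟩
  have hj : g j ∈ span K (Set.range g) := subset_span (Set.mem_range_self j)
  have h1 : ψ (g j) = (Module.Basis.span hg).coord i₀ ⟨g j, hj⟩ := by
    rw [← hψ]
    rfl
  have h2 : (⟨g j, hj⟩ : span K (Set.range g)) = Module.Basis.span hg j := by
    apply Subtype.ext
    rw [Module.Basis.span_apply]
  rw [h1, h2, Module.Basis.coord_apply, Module.Basis.repr_self, Finsupp.single_apply]

theorem NZP : NZP_stmt.{u} := by
  intro K _ n f g hg hf h0
  classical
  obtain ⟨i₀, hi₀⟩ := hf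
  obtain ⟨ψ, hψ⟩ := NZP_dual g hg i₀
  let F := FreeAlgebra K ℕ
  let L : F →ₐ[K] Module.End K (F × F) := Algebra.lsmul K K (F × F)
  have hL : ∀ (a : F) (v : F × F), L a v = a • v := fun a v => rfl
  let X0 : Module.End K (F × F) :=
    LinearMap.prod 0 ((ψ.smulRight (1 : F)).comp (LinearMap.fst K F F))
  have hX0 : ∀ v : F × F, X0 v = (0, ψ v.1 • (1 : F)) := fun v => rfl
  let Φ : F →ₐ[K] Module.End K (F × F) :=
    FreeAlgebra.lift K (fun j : ℕ => Nat.casesOn j X0 (fun k => L (FreeAlgebra.ι K k)))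
  have hΦ0 : Φ (FreeAlgebra.ι K 0) = X0 := FreeAlgebra.lift_ι_apply _ _
  have hΦ : ∀ a : F, Φ (FreeAlgebra.lift K (fun j : ℕ => FreeAlgebra.ι K (j + 1)) a) = L a := by
    have h1 : Φ.comp (FreeAlgebra.lift K (fun j : ℕ => FreeAlgebra.ι K (j + 1))) = L := by
      apply FreeAlgebra.hom_ext
      ext1 j
      rw [Function.comp_apply, Function.comp_apply, AlgHom.comp_apply, FreeAlgebra.lift_ι_apply]
      exact FreeAlgebra.lift_ι_apply _ _
    intro a
    rw [← h1]
    rfl
  have h1 := congrArg (fun x => Φ x ((1 : F), (0 : F))) h0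
  simp only [map_sum, map_mul, hΦ, hΦ0, map_zero, LinearMap.zero_apply] at h1
  have h2 : ∀ i, (L (f i) * X0 * L (g i)) ((1 : F), (0 : F)) =
      ((0 : F), ψ (g i) • f i) := by
    intro i
    rw [Module.End.mul_apply, Module.End.mul_apply, hL, hX0, hL]
    simp only [Prod.smul_mk, smul_eq_mul, mul_one, mul_zero, mul_smul_comm]
  rw [LinearMap.sum_apply, Finset.sum_congr rfl fun i _ => h2 i] at h1
  have h3 := congrArg Prod.snd h1
  rw [Prod.snd_sum] at h3
  simp only [hψ, ite_smul, one_smul, zero_smul, Prod.snd_zero, Finset.sum_ite_eq',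
    Finset.mem_univ, if_true] at h3
  exact hi₀ h3

end Pool.Agent.FO
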